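import Pool.Agent.Run7.h480.WO.IND

set_option autoImplicit false

namespace Run7.h480.WO
open Run7.h520.WO

section
variable {M : Type} [LinearOrder M] {E : M → M → Prop} {d : M → M → M}

/-- Adding one pair to a partial isomorphism. -/
theorem ext_one (h : Ax E d) {R : M → M → Prop} (hR : PI E d R) {x x' : M}
    (h1 : ∀ c c', R c c' → (c < x ↔ c' < x') ∧ (x < c ↔ x' < c') ∧ (E c x ↔ E c' x'))
    (h2 : ∀ c c', R c c' → E c x → R (d c x) (d c' x')) :
    PI E d (fun u v => R u v ∨ (u = x ∧ v = x')) where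
  fin := by
    have : {p : M × M | R p.1 p.2 ∨ (p.1 = x ∧ p.2 = x')} ⊆
        {p : M × M | R p.1 p.2} ∪ {(x, x')} := by
      rintro ⟨u, v⟩ (hp | ⟨hp, hp'⟩)
      · exact Or.inl hp
      · right
        simp only at hp hp'
        rw [hp, hp']; rfl
    exact (hR.fin.union (Set.finite_singleton _)).subset this
  lt := by
    rintro u u' v v' (hu | ⟨rfl, rfl⟩) (hv | ⟨rfl, rfl⟩)
    · exact hR.lt _ _ _ _ hu hv
    · exact (h1 _ _ hu).1
    · exact (h1 _ _ hv).2.1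
    · simp
  eq := by
    rintro u u' v v' (hu | ⟨rfl, rfl⟩) (hv | ⟨rfl, rfl⟩)
    · exact hR.eq _ _ _ _ hu hv
    · exact (h1 _ _ hu).2.2
    · have := (h1 _ _ hv).2.2
      exact ⟨fun e => h.sm _ _ (this.1 (h.sm _ _ e)), fun e => h.sm _ _ (this.2 (h.sm _ _ e))⟩
    · exact ⟨fun _ => h.rf _, fun _ => h.rf _⟩
  dd := by
    rintro u u' v v' (hu | ⟨rfl, rfl⟩) (hv | ⟨rfl, rfl⟩)
    · exact Or.inl (hR.dd _ _ _ _ hu hv)
    · left
      by_cases he : E u v
      · exact h2 _ _ hu he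
      · rw [h.dj _ _ (Or.inl he), h.dj _ _ (Or.inl (fun e => he ((h1 _ _ hu).2.2.2 e)))]
        exact hu
    · by_cases he : E v u
      · left
        have he' := (h1 _ _ hv).2.2.1 he
        rw [h.ds _ _ (h.sm _ _ he), h.ds _ _ (h.sm _ _ he')]
        exact h2 _ _ hv he
      · right
        have he' : ¬ E v' u' := fun e => he ((h1 _ _ hv).2.2.2 e)
        exact ⟨h.dj _ _ (Or.inl fun e => he (h.sm _ _ e)),
          h.dj _ _ (Or.inl fun e => he' (h.sm _ _ e))⟩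
    · right
      exact ⟨h.dj _ _ (Or.inr rfl), h.dj _ _ (Or.inr rfl)⟩

/-- The identity of a closed set. -/
theorem pi_id {A : Finset M} (hA : ∀ x ∈ A, ∀ y ∈ A, d x y ∈ A) :
    PI E d (fun u v => u ∈ A ∧ u = v) where
  fin := by
    have : {p : M × M | p.1 ∈ A ∧ p.1 = p.2} ⊆ (A ×ˢ A : Finset (M × M)) := by
      rintro ⟨u, v⟩ ⟨hp, hp'⟩
      simp only at hp hp'
      rw [Finset.mem_coe, Finset.mem_product]
      exact ⟨hp, hp' ▸ hp⟩
    exact (Finset.finite_toSet _).subset this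
  lt := by rintro u u' v v' ⟨_, rfl⟩ ⟨_, rfl⟩; rfl
  eq := by rintro u u' v v' ⟨_, rfl⟩ ⟨_, rfl⟩; rfl
  dd := by rintro u u' v v' ⟨hu, rfl⟩ ⟨hv, rfl⟩; exact ⟨hA u hu v hv, rfl⟩

/-- nearest points of a middle point -/
theorem mid_near (h : Ax E d) {a c l x u : M} (hlx : l < x) (hxu : x < u)
    (hal : E a l) (hau : E a u) (hcl : E c l)
    (ha : a < l ∨ u < a) (hc : c < l ∨ u < c) (m1 : d a l ≤ d c l) (m2 : d a u ≤ d c u) :
    d a x ≤ d c x := by
  have hlu : E l u := h.tr _ _ _ (h.sm _ _ hal) hau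
  have hlxE : E l x := h.cv _ _ _ hlx hxu hlu
  have hax : E a x := h.tr _ _ _ hal hlxE
  have hcx : E c x := h.tr _ _ _ hcl hlxE
  have hcu : E c u := h.tr _ _ _ hcl hlu
  rcases ha with ha | ha <;> rcases hc with hc | hc
  · rw [h.dm a l x ha hlx hax, h.dm c l x hc hlx hcx]
    exact max_le_max m1 le_rfl
  · have e1 : d a x ≤ d a u := by
      rw [h.dm a x u (ha.trans hlx) hxu hau]; exact le_max_left _ _
    have e2 : d c u ≤ d c x := by
      rw [h.ds _ _ hcu, h.ds _ _ hcx, h.dm x u c hxu hc (h.sm _ _ hcx)]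
      exact le_max_right _ _
    exact e1.trans (m2.trans e2)
  · have e1 : d a x ≤ d a l := by
      rw [h.ds _ _ hax, h.ds _ _ hal, h.dm l x a hlx (hxu.trans ha) (h.sm _ _ hal)]
      exact le_max_right _ _
    have e2 : d c l ≤ d c x := by
      rw [h.dm c l x hc hlx hcx]; exact le_max_left _ _
    exact e1.trans (m1.trans e2)
  · rw [h.ds _ _ hax, h.ds _ _ hcx, h.dm x u a hxu ha (h.sm _ _ hax),
      h.dm x u c hxu hc (h.sm _ _ hcx), h.ds _ _ (h.sm _ _ hau), h.ds _ _ (h.sm _ _ hcu)]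
    exact max_le_max le_rfl m2

/-- the distances to a point outside of the interval are monotone -/
theorem mid_mono (h : Ax E d) {a l x u : M} (hlx : l < x) (hxu : x < u)
    (hal : E a l) (hau : E a u) (ha : a < l ∨ u < a) :
    (d a l ≤ d a x ∧ d a x ≤ d a u) ∨ (d a u ≤ d a x ∧ d a x ≤ d a l) := by
  have hlu : E l u := h.tr _ _ _ (h.sm _ _ hal) hau
  have hlxE : E l x := h.cv _ _ _ hlx hxu hlu
  have hax : E a x := h.tr _ _ _ hal hlxE
  rcases ha with ha | ha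
  · left
    refine ⟨?_, ?_⟩
    · rw [h.dm a l x ha hlx hax]; exact le_max_left _ _
    · rw [h.dm a x u (ha.trans hlx) hxu hau]; exact le_max_left _ _
  · right
    refine ⟨?_, ?_⟩
    · rw [h.ds _ _ hax, h.ds _ _ hau, h.dm x u a hxu ha (h.sm _ _ hax)]; exact le_max_right _ _
    · rw [h.ds _ _ hax, h.ds _ _ hal, h.dm l x a hlx (hxu.trans ha) (h.sm _ _ hal)]
      exact le_max_right _ _

/-- points of the same cut -/
theorem cut_mid {l x u c : M} (hlx : l < x) (hxu : x < u) (hcl : c ≠ l)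
    (h1 : c < l ↔ c < u) (h2 : l < c ↔ u < c) :
    (c < l ↔ c < x) ∧ (l < c ↔ x < c) ∧ (c < u ↔ c < x) ∧ (u < c ↔ x < c) ∧
      (c < l ∨ u < c) := by
  rcases lt_or_gt_of_ne hcl with h | h
  · have h3 := h1.1 h
    have h4 := h.trans hlx
    have h5 : ¬ l < c := fun h6 => absurd (h.trans h6) (lt_irrefl _)
    have h6 : ¬ x < c := fun h6 => absurd (h4.trans h6) (lt_irrefl _)
    have h7 : ¬ u < c := fun h6 => absurd (h3.trans h6) (lt_irrefl _)
    tauto
  · have h3 := h2.1 h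
    have h4 := hxu.trans h3
    have h5 : ¬ c < l := fun h6 => absurd (h.trans h6) (lt_irrefl _)
    have h6 : ¬ c < x := fun h6 => absurd (h4.trans h6) (lt_irrefl _)
    have h7 : ¬ c < u := fun h6 => absurd (h3.trans h6) (lt_irrefl _)
    tauto

theorem conv (hres : S_RES) : S_CONV := by
  intro M _ E d h A hA x
  have hid := pi_id (E := E) hA
  refine ind M E d h A (fun x => ∀ x' x'' : M,
    (x < x' ∧ x' < x'') ∨ (x'' < x' ∧ x' < x) →
    (∃ R, PI E d R ∧ (∀ c ∈ A, R c c) ∧ R x x'') → ∃ R, PI E d R ∧ (∀ c ∈ A, R c c) ∧ R x x')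
    ?_ ?_ ?_ x
  · -- x in A
    intro x hx x' x'' hor ⟨R, hR, hRA, hRx⟩
    exfalso
    have h1 := hR.lt x x x x'' (hRA x hx) hRx
    have h2 := hR.lt x x'' x x hRx (hRA x hx)
    have h3 : ¬ x < x'' := fun h4 => lt_irrefl _ (h1.2 h4)
    have h4 : ¬ x'' < x := fun h5 => lt_irrefl _ (h2.2 h5)
    rcases hor with ⟨o1, o2⟩ | ⟨o1, o2⟩
    · exact h3 (o1.trans o2)
    · exact h4 (o1.trans o2)
  · -- no point of A in the class
    intro x hxA hno x' x'' hor ⟨R, hR, hRA, hRx⟩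
    have hcut : ∀ c ∈ A, (c < x ↔ c < x') ∧ (x < c ↔ x' < c) ∧ ¬ E c x' := by
      intro c hc
      have hcx : c ≠ x := fun e => hxA (e ▸ hc)
      have h1 := hR.lt c c x x'' (hRA c hc) hRx
      have h2 := hR.lt x x'' c c hRx (hRA c hc)
      have h3 := hR.eq c c x x'' (hRA c hc) hRx
      have h4 := hno c hc
      have h5 : ¬ E c x'' := fun e => h4 (h3.2 e)
      rcases hor with ⟨o1, o2⟩ | ⟨o1, o2⟩
      · obtain ⟨g1, g2, g3, g4, g5⟩ := cut_mid o1 o2 hcx h1 h2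
        refine ⟨g1, g2, fun e => ?_⟩
        rcases g5 with g5 | g5
        · exact h4 (h.cv c x x' g5 o1 e)
        · have e2 := h.cv x' x'' c o2 g5 (h.sm _ _ e)
          exact h5 (h.tr _ _ _ e e2)
      · have hcx'' : c ≠ x'' := by
          intro e
          rw [e] at h1 h2
          have : x'' < x := o1.trans o2
          exact lt_irrefl _ (h1.1 this)
        obtain ⟨g1, g2, g3, g4, g5⟩ := cut_mid o1 o2 hcx'' h1.symm h2.symm
        refine ⟨g3, g4, fun e => ?_⟩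
        rcases g5 with g5 | g5
        · exact h5 (h.cv c x'' x' g5 o1 e)
        · have e2 := h.cv x' x c o2 g5 (h.sm _ _ e)
          exact h4 (h.tr _ _ _ e e2)
    refine ⟨_, ext_one h hid (x := x) (x' := x') ?_ ?_, fun c hc => Or.inl ⟨hc, rfl⟩,
      Or.inr ⟨rfl, rfl⟩⟩
    · rintro c c' ⟨hc, rfl⟩
      obtain ⟨g1, g2, g3⟩ := hcut c hc
      exact ⟨g1, g2, ⟨fun e => absurd e (hno c hc), fun e => absurd e g3⟩⟩
    · rintro c c' ⟨hc, rfl⟩ he
      exact absurd he (hno c hc)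
  · -- a in A in the class of x
    intro x hxA a ha hax hmin hP x' x'' hor ⟨R, hR, hRA, hRx⟩
    have hanx : a ≠ x := fun e => hxA (e ▸ ha)
    have f1 : ∀ c ∈ A, (c < x ↔ c < x'') := fun c hc => hR.lt c c x x'' (hRA c hc) hRx
    have f2 : ∀ c ∈ A, (x < c ↔ x'' < c) := fun c hc => hR.lt x x'' c c hRx (hRA c hc)
    have f3 : ∀ c ∈ A, (E c x ↔ E c x'') := fun c hc => hR.eq c c x x'' (hRA c hc) hRx
    have hax'' : E a x'' := (f3 a ha).1 hax
    have hxx'' : E x x'' := h.tr _ _ _ (h.sm _ _ hax) hax''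
    have hmin'' : ∀ c ∈ A, E c x'' → d a x'' ≤ d c x'' := by
      intro c hc hcx
      have h1 := hR.dd a a x x'' (hRA a ha) hRx
      have h2 := hR.dd c c x x'' (hRA c hc) hRx
      have h3 := hR.lt _ _ _ _ h2 h1
      have h4 := hmin c hc ((f3 c hc).2 hcx)
      by_contra hcon
      push Not at hcon
      exact absurd (h3.2 hcon) (not_lt.2 h4)
    have hne'' : ∀ c ∈ A, c ≠ x'' := by
      intro c hc e
      have hcx : c ≠ x := fun e => hxA (e ▸ hc)
      have h1 := f1 c hc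
      have h2 := f2 c hc
      rw [e] at h1 h2 hcx
      rcases lt_or_gt_of_ne hcx with h3 | h3
      · exact lt_irrefl _ (h1.1 h3)
      · exact lt_irrefl _ (h2.1 h3)
    -- the facts about x'
    have hxx' : E x x' := by
      rcases hor with ⟨o1, o2⟩ | ⟨o1, o2⟩
      · exact h.cv _ _ _ o1 o2 hxx''
      · have h1 := h.cv _ _ _ o1 o2 (h.sm _ _ hxx'')
        exact h.tr _ _ _ hxx'' h1
    have hax' : E a x' := h.tr _ _ _ hax hxx'
    have hcut : ∀ c ∈ A, (c < x ↔ c < x') ∧ (x < c ↔ x' < c) := by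
      intro c hc
      have hcx : c ≠ x := fun e => hxA (e ▸ hc)
      rcases hor with ⟨o1, o2⟩ | ⟨o1, o2⟩
      · obtain ⟨g1, g2, g3, g4, g5⟩ := cut_mid o1 o2 hcx (f1 c hc) (f2 c hc)
        exact ⟨g1, g2⟩
      · obtain ⟨g1, g2, g3, g4, g5⟩ := cut_mid o1 o2 (hne'' c hc) (f1 c hc).symm (f2 c hc).symm
        exact ⟨g3, g4⟩
    have hnear' : ∀ c ∈ A, E c x → d a x' ≤ d c x' := by
      intro c hc hcx
      have hcnx : c ≠ x := fun e => hxA (e ▸ hc)
      rcases hor with ⟨o1, o2⟩ | ⟨o1, o2⟩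
      · obtain ⟨_, _, _, _, g5⟩ := cut_mid o1 o2 hcnx (f1 c hc) (f2 c hc)
        obtain ⟨_, _, _, _, g6⟩ := cut_mid o1 o2 hanx (f1 a ha) (f2 a ha)
        exact mid_near h o1 o2 hax hax'' hcx g6 g5 (hmin c hc hcx)
          (hmin'' c hc ((f3 c hc).1 hcx))
      · obtain ⟨_, _, _, _, g5⟩ := cut_mid o1 o2 (hne'' c hc) (f1 c hc).symm (f2 c hc).symm
        obtain ⟨_, _, _, _, g6⟩ := cut_mid o1 o2 (hne'' a ha) (f1 a ha).symm (f2 a ha).symm
        exact mid_near h o1 o2 hax'' hax ((f3 c hc).1 hcx) g6 g5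
          (hmin'' c hc ((f3 c hc).1 hcx)) (hmin c hc hcx)
    have hmono : (d a x ≤ d a x' ∧ d a x' ≤ d a x'') ∨ (d a x'' ≤ d a x' ∧ d a x' ≤ d a x) := by
      rcases hor with ⟨o1, o2⟩ | ⟨o1, o2⟩
      · obtain ⟨_, _, _, _, g6⟩ := cut_mid o1 o2 hanx (f1 a ha) (f2 a ha)
        exact mid_mono h o1 o2 hax hax'' g6
      · obtain ⟨_, _, _, _, g6⟩ := cut_mid o1 o2 (hne'' a ha) (f1 a ha).symm (f2 a ha).symm
        exact (mid_mono h o1 o2 hax'' hax g6).symm
    -- y ~ y'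
    obtain ⟨R', hR', hR'A, hR'y⟩ : ∃ R, PI E d R ∧ (∀ c ∈ A, R c c) ∧ R (d a x) (d a x') := by
      have hRy := hR.dd a a x x'' (hRA a ha) hRx
      by_cases e1 : d a x' = d a x
      · obtain ⟨B', g1, g2, g3, _, _⟩ := close_one h A hA _ (d a x) rfl
        refine ⟨_, pi_id (E := E) g3, fun c hc => ⟨g1 hc, rfl⟩, g2, e1.symm⟩
      by_cases e2 : d a x' = d a x''
      · exact ⟨R, hR, hRA, e2 ▸ hRy⟩
      refine hP (d a x') (d a x'') ?_ ⟨R, hR, hRA, hRy⟩
      rcases hmono with ⟨m1, m2⟩ | ⟨m1, m2⟩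
      · exact Or.inl ⟨lt_of_le_of_ne m1 (fun e => e1 e.symm), lt_of_le_of_ne m2 e2⟩
      · exact Or.inr ⟨lt_of_le_of_ne m1 (fun e => e2 e.symm), lt_of_le_of_ne m2 e1⟩
    obtain ⟨R₁, hR₁, hR₁A, hR₁y, hR₁c⟩ := hres M E d h (fun u v => u ∈ A ∧ u = v) R' hid hR'
      (fun u v huv => huv.2 ▸ hR'A u huv.1) (d a x) (d a x') hR'y
    have hanx' : a ≠ x' := by
      intro e
      have h1 := hcut a ha
      rcases lt_or_gt_of_ne hanx with h3 | h3
      · have := h1.1.1 h3; rw [e] at this; exact lt_irrefl _ this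
      · have := h1.2.1 h3; rw [e] at this; exact lt_irrefl _ this
    obtain ⟨l1, l2, _, _⟩ := d_left h hax hanx
    obtain ⟨l1', l2', _, _⟩ := d_left h hax' hanx'
    have hleft : ∀ c c', R₁ c c' → (c ∈ A ∧ c = c') ∨ (c < x ∧ ¬ E c x ∧ c' < x' ∧ ¬ E c' x') := by
      intro c c' hcc
      rcases hR₁c c c' hcc with g | ⟨rfl, rfl⟩ | ⟨g1, _, g3, _⟩
      · exact Or.inl g
      · exact Or.inr ⟨l1, l2, l1', l2'⟩
      · obtain ⟨k1, k2⟩ := left_trans h l1 l2 (Or.inl g1)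
        obtain ⟨k3, k4⟩ := left_trans h l1' l2' (Or.inl g3)
        exact Or.inr ⟨k1, k2, k3, k4⟩
    refine ⟨_, ext_one h hR₁ (x := x) (x' := x') ?_ ?_, fun c hc => Or.inl (hR₁A c c ⟨hc, rfl⟩),
      Or.inr ⟨rfl, rfl⟩⟩
    · intro c c' hcc
      rcases hleft c c' hcc with ⟨hc, rfl⟩ | ⟨k1, k2, k3, k4⟩
      · refine ⟨(hcut c hc).1, (hcut c hc).2, ?_⟩
        exact ⟨fun e => h.tr _ _ _ e hxx', fun e => h.tr _ _ _ e (h.sm _ _ hxx')⟩
      · refine ⟨⟨fun _ => k3, fun _ => k1⟩, ⟨fun e => absurd (k1.trans e) (lt_irrefl _),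
          fun e => absurd (k3.trans e) (lt_irrefl _)⟩, ⟨fun e => absurd e k2, fun e => absurd e k4⟩⟩
    · intro c c' hcc he
      rcases hleft c c' hcc with ⟨hc, rfl⟩ | ⟨k1, k2, k3, k4⟩
      · have hcnx : c ≠ x := fun e => hxA (e ▸ hc)
        by_cases hac : a = c
        · rw [← hac]; exact hR₁y
        have hcnx' : c ≠ x' := by
          intro e
          have h1 := hcut c hc
          rcases lt_or_gt_of_ne hcnx with h3 | h3
          · have := h1.1.1 h3; rw [e] at this; exact lt_irrefl _ this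
          · have := h1.2.1 h3; rw [e] at this; exact lt_irrefl _ this
        have hcx' : E c x' := h.tr _ _ _ he hxx'
        have n1 := (near M E d h x a c hax he hanx hcnx hac).2.2.2.2 (hmin c hc he)
        have n2 := (near M E d h x' a c hax' hcx' hanx' hcnx' hac).2.2.2.2 (hnear' c hc he)
        have h1 : R₁ (d c a) (d c a) := hR₁A _ _ ⟨hA c hc a ha, rfl⟩
        have h2 := hR₁.lt _ _ _ _ h1 hR₁y
        rw [n1, n2]
        rcases lt_or_ge (d c a) (d a x) with h3 | h3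
        · rw [max_eq_right h3.le, max_eq_right (h2.1 h3).le]; exact hR₁y
        · have h4 : d a x' ≤ d c a := by
            by_contra hcon
            push Not at hcon
            exact absurd (h2.2 hcon) (not_lt.2 h3)
          rw [max_eq_left h3, max_eq_left h4]; exact h1
      · exact absurd he k2

end

end Run7.h480.WO
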