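import Pool.Agent.Run7.h480.WO.NEAR

set_option autoImplicit false

namespace Run7.h480.WO
open Run7.h520.WO

section
variable {M : Type} [LinearOrder M] {E : M → M → Prop} {d : M → M → M}

open scoped Classical in
/-- the number of points of `A` to the left of `x` or in its class -/
noncomputable def Lc (E : M → M → Prop) (A : Finset M) (x : M) : ℕ :=
  (A.filter (fun c => c < x ∨ E c x)).card

theorem Lc_le (A : Finset M) (x : M) : Lc E A x ≤ A.card := by
  classical
  unfold Lc
  exact Finset.card_filter_le _ _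

/-- the value is strictly to the left of the class of `x` -/
theorem d_left (h : Ax E d) {a x : M} (hax : E a x) (hne : a ≠ x) :
    d a x < x ∧ ¬ E (d a x) x ∧ d a x < a ∧ ¬ E (d a x) a := by
  have h1 := h.dl a x hax hne
  have h2 := h.dl x a (h.sm _ _ hax) hne.symm
  rw [← h.ds a x hax] at h2
  exact ⟨h2.1, h2.2, h1.1, h1.2⟩

/-- points to the left of a class and points equivalent to them -/
theorem left_trans (h : Ax E d) {c y x : M} (hy : y < x) (hyE : ¬ E y x) (hc : c < y ∨ E c y) :
    c < x ∧ ¬ E c x := by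
  rcases hc with hc | hc
  · refine ⟨hc.trans hy, fun hcx => ?_⟩
    have h1 := h.cv c y x hc hy hcx
    exact hyE (h.tr _ _ _ (h.sm _ _ h1) hcx)
  · have hcx : ¬ E c x := fun hcx => hyE (h.tr _ _ _ (h.sm _ _ hc) hcx)
    refine ⟨?_, hcx⟩
    by_contra hcon
    push Not at hcon
    rcases hcon.lt_or_eq with h1 | h1
    · exact hyE (h.cv y x c hy h1 (h.sm _ _ hc))
    · exact hcx (h1 ▸ h.rf x)

theorem Lc_lt (h : Ax E d) {A : Finset M} {a x : M} (ha : a ∈ A) (hax : E a x) (hne : a ≠ x) :
    Lc E A (d a x) < Lc E A x := by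
  classical
  unfold Lc
  apply Finset.card_lt_card
  obtain ⟨h1, h2, h3, h4⟩ := d_left h hax hne
  refine ⟨?_, ?_⟩
  · intro c hc
    rw [Finset.mem_filter] at hc ⊢
    exact ⟨hc.1, Or.inl (left_trans h h1 h2 hc.2).1⟩
  · intro hsub
    have h5 : a ∈ A.filter (fun c => c < x ∨ E c x) := by
      rw [Finset.mem_filter]; exact ⟨ha, Or.inr hax⟩
    have h6 := hsub h5
    rw [Finset.mem_filter] at h6
    rcases h6.2 with h7 | h7
    · exact absurd (h7.trans h3) (lt_irrefl _)
    · exact h4 (h.sm _ _ h7)

theorem ind : S_IND := by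
  intro M _ E d h A P h1 h2 h3
  have key : ∀ n : ℕ, ∀ x : M, Lc E A x = n → P x := by
    intro n
    induction n using Nat.strong_induction_on with
    | _ n ih =>
      intro x hx
      by_cases hxA : x ∈ A
      · exact h1 x hxA
      by_cases hc : ∀ c ∈ A, ¬ E c x
      · exact h2 x hxA hc
      · push Not at hc
        classical
        have hne : (A.filter (fun c => E c x)).Nonempty := by
          obtain ⟨c, hc1, hc2⟩ := hc
          exact ⟨c, Finset.mem_filter.2 ⟨hc1, hc2⟩⟩
        obtain ⟨a, ha, hmin⟩ := Finset.exists_min_image _ (fun c => d c x) hne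
        rw [Finset.mem_filter] at ha
        have hax : a ≠ x := fun e => hxA (e ▸ ha.1)
        refine h3 x hxA a ha.1 ha.2 (fun c hc1 hc2 => hmin c (Finset.mem_filter.2 ⟨hc1, hc2⟩)) ?_
        exact ih _ (hx ▸ Lc_lt h ha.1 ha.2 hax) _ rfl
  intro x
  exact key _ x rfl

theorem close_one (h : Ax E d) (B : Finset M) (hB : ∀ x ∈ B, ∀ y ∈ B, d x y ∈ B) :
    ∀ (n : ℕ) (x : M), Lc E B x = n → ∃ B' : Finset M, B ⊆ B' ∧ x ∈ B' ∧
      (∀ u ∈ B', ∀ v ∈ B', d u v ∈ B') ∧ B'.card ≤ B.card + Lc E B x + 1 ∧
      ∀ c ∈ B', c ∈ B ∨ c = x ∨ (c < x ∧ ¬ E c x) := by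
  classical
  intro n
  induction n using Nat.strong_induction_on with
  | _ n ih =>
    intro x hx
    by_cases hxB : x ∈ B
    · exact ⟨B, subset_rfl, hxB, hB, by omega, fun c hc => Or.inl hc⟩
    have hxx : d x x = x := h.dj x x (Or.inr rfl)
    by_cases hc : ∀ c ∈ B, ¬ E c x
    · refine ⟨insert x B, Finset.subset_insert _ _, Finset.mem_insert_self _ _, ?_, ?_, ?_⟩
      · intro u hu v hv
        rw [Finset.mem_insert] at hu hv ⊢
        rcases hu with rfl | hu <;> rcases hv with rfl | hv
        · exact Or.inl hxx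
        · exact Or.inl (h.dj _ _ (Or.inl fun e => hc v hv (h.sm _ _ e)))
        · right
          rw [h.dj _ _ (Or.inl (hc u hu))]; exact hu
        · exact Or.inr (hB u hu v hv)
      · rw [Finset.card_insert_of_notMem hxB]; omega
      · intro c hc
        rw [Finset.mem_insert] at hc
        rcases hc with rfl | hc
        · exact Or.inr (Or.inl rfl)
        · exact Or.inl hc
    · push Not at hc
      have hne : (B.filter (fun c => E c x)).Nonempty := by
        obtain ⟨c, hc1, hc2⟩ := hc
        exact ⟨c, Finset.mem_filter.2 ⟨hc1, hc2⟩⟩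
      obtain ⟨a, ha, hmin⟩ := Finset.exists_min_image _ (fun c => d c x) hne
      rw [Finset.mem_filter] at ha
      have hax : a ≠ x := fun e => hxB (e ▸ ha.1)
      obtain ⟨l1, l2, l3, l4⟩ := d_left h ha.2 hax
      have hL := Lc_lt h ha.1 ha.2 hax
      obtain ⟨B', h1, h2, h3, h4, h5⟩ := ih _ (hx ▸ hL) (d a x) rfl
      have h6 : ∀ c ∈ B', c ∈ B ∨ (c < x ∧ ¬ E c x) := by
        intro c hc
        rcases h5 c hc with hc | rfl | hc
        · exact Or.inl hc
        · exact Or.inr ⟨l1, l2⟩
        · exact Or.inr (left_trans h l1 l2 (Or.inl hc.1))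
      have h7 : ∀ c ∈ B', E c x → d c x ∈ B' := by
        intro c hc hcx
        rcases h6 c hc with hcB | hcB
        · have hcne : c ≠ x := fun e => hxB (e ▸ hcB)
          by_cases hca : a = c
          · rw [← hca]; exact h2
          · have h8 := (near M E d h x a c ha.2 hcx hax hcne hca).2.2.2.2
              (hmin c (Finset.mem_filter.2 ⟨hcB, hcx⟩))
            rw [h8]
            rcases max_choice (d c a) (d a x) with h9 | h9
            · rw [h9]; exact h1 (hB c hcB a ha.1)
            · rw [h9]; exact h2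
        · exact absurd hcx hcB.2
      refine ⟨insert x B', h1.trans (Finset.subset_insert _ _), Finset.mem_insert_self _ _,
        ?_, ?_, ?_⟩
      · intro u hu v hv
        rw [Finset.mem_insert] at hu hv ⊢
        rcases hu with rfl | hu <;> rcases hv with rfl | hv
        · exact Or.inl hxx
        · by_cases he : E u v
          · right
            rw [h.ds _ _ he]
            exact h7 v hv (h.sm _ _ he)
          · exact Or.inl (h.dj _ _ (Or.inl he))
        · right
          by_cases he : E u v
          · exact h7 u hu he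
          · rw [h.dj _ _ (Or.inl he)]; exact hu
        · exact Or.inr (h3 u hu v hv)
      · have := Finset.card_insert_le x B'
        omega
      · intro c hc
        rw [Finset.mem_insert] at hc
        rcases hc with rfl | hc
        · exact Or.inr (Or.inl rfl)
        · rcases h6 c hc with h8 | h8
          · exact Or.inl h8
          · exact Or.inr (Or.inr h8)

theorem close : S_CLOSE := by
  intro M _ E d h n
  induction n with
  | zero =>
    refine ⟨0, fun A hA => ⟨∅, ?_, by simp, by simp⟩⟩
    have : A = ∅ := Finset.card_eq_zero.1 (by omega)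
    rw [this]
  | succ n ih =>
    obtain ⟨b, hb⟩ := ih
    refine ⟨2 * b + 1, fun A hA => ?_⟩
    classical
    rcases Nat.lt_or_ge A.card (n + 1) with h1 | h1
    · obtain ⟨B, h2, h3, h4⟩ := hb A (by omega)
      exact ⟨B, h2, by omega, h4⟩
    · have hne : A.Nonempty := Finset.card_pos.1 (by omega)
      obtain ⟨x, hx⟩ := hne
      obtain ⟨B, h2, h3, h4⟩ := hb (A.erase x) (by rw [Finset.card_erase_of_mem hx]; omega)
      obtain ⟨B', g1, g2, g3, g4, _⟩ := close_one h B h4 _ x rfl
      refine ⟨B', ?_, ?_, g3⟩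
      · intro c hc
        by_cases hcx : c = x
        · rw [hcx]; exact g2
        · exact g1 (h2 (Finset.mem_erase.2 ⟨hcx, hc⟩))
      · have := Lc_le (E := E) B x
        omega

end

end Run7.h480.WO
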