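import Pool.Agent.Run7.h520.WO.I

set_option autoImplicit false

namespace Run7.h480.WO
open Run7.h520.WO

theorem near_arith {M : Type} [LinearOrder M] {a c x p q r : M} (hax : a ≠ x) (hcx : c ≠ x)
    (hac : a ≠ c)
    (h1 : (c < a ∧ a < x) ∨ (x < a ∧ a < c) → r = max q p)
    (h2 : (a < x ∧ x < c) ∨ (c < x ∧ x < a) → q = max p r)
    (h3 : (a < c ∧ c < x) ∨ (x < c ∧ c < a) → p = max q r) :
    ((r ≤ max q p) ∧ (q < p → (c < x ↔ a < x)) ∧ (p < q → (c < x ↔ c < a)) ∧
    (q ≠ p → r = max q p) ∧ (p ≤ r → r = max q p)) := by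
  rcases lt_or_gt_of_ne hax with ha | ha <;> rcases lt_or_gt_of_ne hcx with hb | hb <;>
    rcases lt_or_gt_of_ne hac with hc | hc
  · have e := h3 (Or.inl ⟨hc, hb⟩)
    refine ⟨by order, fun _ => ⟨fun _ => ha, fun _ => hb⟩, fun _ => ?_, fun _ => by order,
      fun _ => by order⟩
    exfalso; order
  · have e := h1 (Or.inl ⟨hc, ha⟩)
    exact ⟨by order, fun _ => ⟨fun _ => ha, fun _ => hb⟩, fun _ => ⟨fun _ => hc, fun _ => hb⟩,
      fun _ => e, fun _ => e⟩
  · have e := h2 (Or.inl ⟨ha, hb⟩)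
    refine ⟨by order, fun _ => ?_, fun _ => ⟨fun _ => by order, fun _ => by order⟩, fun _ => ?_,
      fun _ => by order⟩
    · exfalso; order
    · rcases le_total p r with h | h
      · order
      · exfalso; order
  · exact absurd (hb.trans hc) (by order)
  · exact absurd (ha.trans hc) (by order)
  · have e := h2 (Or.inr ⟨hb, ha⟩)
    refine ⟨by order, fun _ => ?_, fun _ => ⟨fun _ => by order, fun _ => by order⟩, fun _ => ?_,
      fun _ => by order⟩
    · exfalso; order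
    · rcases le_total p r with h | h
      · order
      · exfalso; order
  · have e := h1 (Or.inr ⟨ha, hc⟩)
    exact ⟨by order, fun _ => ⟨fun _ => by order, fun _ => by order⟩,
      fun _ => ⟨fun _ => by order, fun _ => by order⟩, fun _ => e, fun _ => e⟩
  · have e := h3 (Or.inr ⟨hb, hc⟩)
    refine ⟨by order, fun _ => ⟨fun _ => by order, fun _ => by order⟩, fun _ => ?_,
      fun _ => by order, fun _ => by order⟩
    exfalso; order

theorem near : S_NEAR := by
  intro M _ E d h x a c hax hcx hane hcne hac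
  have e1 : E a c := h.tr a x c hax (h.sm _ _ hcx)
  have s1 := h.ds _ _ hax
  have s2 := h.ds _ _ hcx
  have s3 := h.ds _ _ e1
  have e2 := h.sm _ _ hax
  have e3 := h.sm _ _ hcx
  have e4 := h.sm _ _ e1
  apply near_arith hane hcne hac
  · rintro (⟨h1, h2⟩ | ⟨h1, h2⟩)
    · rw [h.dm c a x h1 h2 hcx]
    · rw [s2, h.dm x a c h1 h2 e3, s1, s3, max_comm]
  · rintro (⟨h1, h2⟩ | ⟨h1, h2⟩)
    · rw [← s3, h.dm a x c h1 h2 e1, s2]
    · rw [h.dm c x a h1 h2 e4, s1, max_comm]
  · rintro (⟨h1, h2⟩ | ⟨h1, h2⟩)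
    · rw [h.dm a c x h1 h2 hax, s3]
    · rw [s1, h.dm x c a h1 h2 e2, s2, max_comm]

end Run7.h480.WO
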